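import Mathlib

/-! Discriminant form of Dobrowolski's theorem: common definitions. -/

open Polynomial

namespace Pool.Agent.H292R2.Leh

/-- an integer polynomial seen as a complex polynomial -/
noncomputable def toC (f : ℤ[X]) : ℂ[X] := f.map (Int.castRingHom ℂ)

/-- the Mahler measure of an integer polynomial -/
noncomputable def MM (f : ℤ[X]) : ℝ := (toC f).mahlerMeasure

/-- product of the distances over all ordered pairs of distinct indices -/
noncomputable def dprod {ι : Type*} [Fintype ι] [DecidableEq ι] (x : ι → ℂ) : ℝ :=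
  ∏ i, ∏ j ∈ Finset.univ.erase i, ‖x i - x j‖

/-- the fields generated by the roots of `f` contain no primitive `p`-th root of unity -/
def NoTors (f : ℤ[X]) (p : ℕ) : Prop :=
  ∀ α : ℂ, (toC f).IsRoot α → ∀ ζ ∈ IntermediateField.adjoin ℚ {α}, ¬ IsPrimitiveRoot ζ p

/-- `x` enumerates the roots of `f` (with multiplicity) -/
def Enum (f : ℤ[X]) {d : ℕ} (x : Fin d → ℂ) : Prop :=
  toC f = ∏ i, (X - C (x i))

end Pool.Agent.H292R2.Leh
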