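import Mathlib
import Pool.Agent.H292R2.Leh.Defs

open Polynomial

namespace Pool.Agent.H292R2.Leh

theorem card_bad_le (f : ℤ[X]) (hm : f.Monic) (hirr : Irreducible f) (B : Finset ℕ)
    (hB : ∀ p ∈ B, p.Prime ∧ p ≠ 2 ∧ ¬ NoTors f p) : 2 ^ B.card ≤ f.natDegree := by
  sorry

theorem NoTors_of_real (f : ℤ[X]) (hm : f.Monic) (hirr : Irreducible f) (t : ℝ)
    (ht : (toC f).IsRoot (t : ℂ)) (p : ℕ) (hp : p.Prime) (hp2 : p ≠ 2) : NoTors f p := by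
  sorry

end Pool.Agent.H292R2.Leh
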