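import Mathlib
import Pool.Agent.H292R2.Leh.Defs

open Polynomial NumberField

namespace Pool.Agent.H292R2.Leh

theorem discr_minpoly_ge (K : Type*) [Field K] [NumberField K] (a : 𝓞 K)
    (ha : IntermediateField.adjoin ℚ {(a : K)} = ⊤) :
    |NumberField.discr K| ≤ |(minpoly ℤ a).discr| ∧ (minpoly ℤ a).natDegree = Module.finrank ℚ K := by
  sorry

end Pool.Agent.H292R2.Leh
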