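import Mathlib
import Pool.Agent.H292R2.Leh.Defs

open Polynomial

namespace Pool.Agent.H292R2.Leh

/-! ### Task A (Hadamard) -/
theorem vand_le {ι : Type*} [Fintype ι] [DecidableEq ι] (y : ι → ℂ) :
    dprod y ≤ (Fintype.card ι : ℝ) ^ (Fintype.card ι) *
      (∏ i, max 1 ‖y i‖) ^ (2 * (Fintype.card ι - 1)) := by
  sorry

/-! ### Task B (maximum modulus on the polytorus) -/
theorem exists_torus {ι : Type*} [Fintype ι] [DecidableEq ι] (F : (ι → ℂ) → ℂ)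
    (hF : ∀ (w : ι → ℂ) (i : ι), Differentiable ℂ (fun z : ℂ => F (Function.update w i z))) :
    ∃ w : ι → ℂ, (∀ i, ‖w i‖ = 1) ∧ ‖F 0‖ ≤ ‖F w‖ := by
  sorry

/-! ### Task C (clusters; uses A and B) -/
theorem cluster {ι κ : Type*} [Fintype ι] [DecidableEq ι] [Fintype κ] [DecidableEq κ]
    (x : ι → ℂ) (y : κ → ℂ) (k : ℕ) (hk : 0 < k) (ε : ℝ) (hε : 0 ≤ ε) :
    dprod x ^ (k ^ 2) * (∏ i, ∏ j, ‖x i - y j‖) ^ (2 * k) * dprod y *
        ε ^ (Fintype.card ι * (k * (k - 1))) ≤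
      ((k * Fintype.card ι + Fintype.card κ : ℕ) : ℝ) ^ (k * Fintype.card ι + Fintype.card κ) *
      ((∏ i, (max 1 ‖x i‖ + ε)) ^ k * ∏ j, max 1 ‖y j‖) ^
        (2 * ((k * Fintype.card ι + Fintype.card κ) - 1)) := by
  sorry

/-! ### Task D (integrality) -/
theorem det_int (f : ℤ[X]) (hm : f.Monic) {d : ℕ} (x : Fin d → ℂ) (hx : Enum f x) (g : ℤ[X]) :
    ∃ n : ℤ, ∏ i, (toC g).eval (x i) = n := by
  sorry

theorem pow_poly (f : ℤ[X]) (hm : f.Monic) {d : ℕ} (x : Fin d → ℂ) (hx : Enum f x) (q : ℕ) :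
    ∃ g : ℤ[X], g.Monic ∧ Enum g (fun i => x i ^ q) := by
  sorry

theorem dprod_pow_ge (f : ℤ[X]) (hm : f.Monic) {d : ℕ} (x : Fin d → ℂ) (hx : Enum f x) (p : ℕ)
    (hinj : Function.Injective (fun i => x i ^ p)) :
    dprod x ≤ dprod (fun i => x i ^ p) := by
  sorry

/-! ### Task E (roots, Mahler measure, discriminant) -/
theorem exists_enum (f : ℤ[X]) (hm : f.Monic) : ∃ x : Fin f.natDegree → ℂ, Enum f x := by
  sorry

theorem enum_injective (f : ℤ[X]) (hm : f.Monic) (hirr : Irreducible f) {d : ℕ} (x : Fin d → ℂ)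
    (hx : Enum f x) : Function.Injective x := by
  sorry

theorem MM_eq (f : ℤ[X]) {d : ℕ} (x : Fin d → ℂ) (hx : Enum f x) :
    MM f = ∏ i, max 1 ‖x i‖ := by
  sorry

theorem discr_eq (f : ℤ[X]) (hm : f.Monic) {d : ℕ} (x : Fin d → ℂ) (hx : Enum f x) (hd : 0 < d) :
    |(f.discr : ℝ)| = dprod x := by
  sorry

/-! ### Task F (resultant bounds; uses D, E) -/
theorem res_ne (f : ℤ[X]) (hm : f.Monic) (hirr : Irreducible f) {d : ℕ} (x : Fin d → ℂ)
    (hx : Enum f x) (hM : 1 < MM f) (m n : ℕ) (hmn : m ≠ n) (hm0 : 0 < m) (hn0 : 0 < n)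
    (h1 : Function.Injective (fun i => x i ^ m)) (h2 : Function.Injective (fun i => x i ^ n))
    (i j : Fin d) : x i ^ m ≠ x j ^ n := by
  sorry

theorem res_ge_pow (f : ℤ[X]) (hm : f.Monic) (hirr : Irreducible f) {d : ℕ} (x : Fin d → ℂ)
    (hx : Enum f x) (hM : 1 < MM f) (p : ℕ) (hp : p.Prime)
    (h1 : Function.Injective (fun i => x i ^ p)) :
    (p : ℝ) ^ d ≤ ∏ i, ∏ j, ‖x i - x j ^ p‖ := by
  sorry

theorem res_ge_one (f : ℤ[X]) (hm : f.Monic) (hirr : Irreducible f) {d : ℕ} (x : Fin d → ℂ)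
    (hx : Enum f x) (hM : 1 < MM f) (m n : ℕ) (hmn : m ≠ n) (hm0 : 0 < m) (hn0 : 0 < n)
    (h1 : Function.Injective (fun i => x i ^ m)) (h2 : Function.Injective (fun i => x i ^ n)) :
    1 ≤ ∏ i, ∏ j, ‖x i ^ m - x j ^ n‖ := by
  sorry

/-! ### Task G (when powers coincide) -/
theorem exists_expand (f : ℤ[X]) (hm : f.Monic) (hirr : Irreducible f) {d : ℕ} (x : Fin d → ℂ)
    (hx : Enum f x) (p : ℕ) (hp : p.Prime) (ht : p = 2 ∨ NoTors f p)
    (h : ¬ Function.Injective (fun i => x i ^ p)) : ∃ g : ℤ[X], f = expand ℤ p g := by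
  sorry

/-! ### Task H (properties of `expand`) -/
theorem expand_props (g : ℤ[X]) (p : ℕ) (hp : p.Prime) (hm : (expand ℤ p g).Monic)
    (hirr : Irreducible (expand ℤ p g)) :
    g.Monic ∧ Irreducible g ∧ (expand ℤ p g).natDegree = p * g.natDegree ∧
      MM (expand ℤ p g) = MM g ∧
      |((expand ℤ p g).discr : ℝ)| =
        (p : ℝ) ^ (p * g.natDegree) * |(g.coeff 0 : ℝ)| ^ (p - 1) * |(g.discr : ℝ)| ^ p ∧
      ∀ q : ℕ, NoTors (expand ℤ p g) q → NoTors g q := by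
  sorry

end Pool.Agent.H292R2.Leh
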